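import Pool.Agent.P.MP_506636_co.Data

set_option autoImplicit false

namespace Pool.Agent.Results.MP_506636_co.LowerBound

/-- For all large `n` there are at least `1.8328 ^ n` pairwise colliding permutations of `n` points. -/
theorem result :
    ∃ N : ℕ, ∀ n : ℕ, N ≤ n →
      ∃ F : Finset (Equiv.Perm (Fin n)),
        (∀ σ ∈ F, ∀ π ∈ F, σ ≠ π →
          ∃ i : Fin n, (σ i).val + 1 = (π i).val ∨ (π i).val + 1 = (σ i).val) ∧
        (1.8328 : ℝ) ^ n ≤ F.card := by
  obtain ⟨N, hN⟩ := Pool.Agent.P.MP_506636_co.fam_eventually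
  exact ⟨N, fun n hn => (hN n hn).perm⟩

end Pool.Agent.Results.MP_506636_co.LowerBound
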